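import Pool.Agent.J6H80.BG.Stm2

/-! Module BG-PAIR: the refined Cauchy-Schwarz bound for the pair amplitude. -/

open MeasureTheory UnitAddTorus
open scoped ComplexConjugate ENNReal

namespace Pool.Agent.J6H17.BG

open Pool.Agent.H751R2.LHY

noncomputable section

theorem pairS_zero_re {N : ℕ} (B : Finset Mom) (a : (Fin N → Mom) → ℂ) :
    (pairS B a 0).re = ∑ M ∈ Fintype.piFinset (fun _ : Fin N => B),
      (((Finset.univ.filter (fun i => M i = 0)).card : ℝ) *
        (((Finset.univ.filter (fun i => M i = 0)).card : ℝ) - 1)) * ‖a M‖ ^ 2 := by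
  classical
  unfold pairS
  have h1 : ∀ i : Fin N, ∀ j ∈ Finset.univ.erase i,
      ∑ M ∈ (Fintype.piFinset (fun _ : Fin N => B)).filter (fun M => M i = 0 ∧ M j = 0),
        conj (a M) * a (Function.update (Function.update M i 0) j (-0)) =
      ∑ M ∈ Fintype.piFinset (fun _ : Fin N => B),
        if M i = 0 then (if M j = 0 then ((‖a M‖ ^ 2 : ℝ) : ℂ) else 0) else 0 := by
    intro i j _
    rw [Finset.sum_filter]
    apply Finset.sum_congr rfl
    intro M _
    by_cases hi : M i = 0
    · by_cases hj : M j = 0
      · rw [if_pos ⟨hi, hj⟩, if_pos hi, if_pos hj]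
        have e1 : Function.update M i 0 = M := by rw [← hi, Function.update_eq_self]
        have e2 : Function.update M j (-0) = M := by
          rw [neg_zero, ← hj, Function.update_eq_self]
        rw [e1, e2, mul_comm, Complex.mul_conj, Complex.normSq_eq_norm_sq]
      · rw [if_neg (fun h => hj h.2), if_pos hi, if_neg hj]
    · rw [if_neg (fun h => hi h.1), if_neg hi]
  rw [Finset.sum_congr rfl fun i _ => Finset.sum_congr rfl (h1 i)]
  have h2 : ∀ i : Fin N, ∑ j ∈ Finset.univ.erase i, ∑ M ∈ Fintype.piFinset (fun _ : Fin N => B),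
      (if M i = 0 then (if M j = 0 then ((‖a M‖ ^ 2 : ℝ) : ℂ) else 0) else 0) =
      ∑ M ∈ Fintype.piFinset (fun _ : Fin N => B), if M i = 0 then
        ((((Finset.univ.filter (fun j : Fin N => M j = 0)).card : ℝ) - 1 : ℝ) : ℂ) *
          ((‖a M‖ ^ 2 : ℝ) : ℂ) else 0 := by
    intro i
    rw [Finset.sum_comm]
    apply Finset.sum_congr rfl
    intro M _
    by_cases hi : M i = 0
    · simp only [if_pos hi]
      have h3 := Finset.add_sum_erase Finset.univ
        (fun j : Fin N => if M j = 0 then ((‖a M‖ ^ 2 : ℝ) : ℂ) else 0) (Finset.mem_univ i)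
      simp only [if_pos hi] at h3
      rw [eq_sub_of_add_eq' h3, ← Finset.sum_filter, Finset.sum_const, nsmul_eq_mul]
      push_cast
      ring
    · simp only [if_neg hi, Finset.sum_const_zero]
  rw [Finset.sum_congr rfl fun i _ => h2 i, Finset.sum_comm, Complex.re_sum]
  apply Finset.sum_congr rfl
  intro M _
  rw [← Finset.sum_filter, Finset.sum_const, nsmul_eq_mul, ← Complex.ofReal_mul,
    ← Complex.ofReal_natCast, ← Complex.ofReal_mul, Complex.ofReal_re]
  ring

/-- The pair amplitude, with the second particle released. -/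
theorem pairS_eq' {N : ℕ} (B : Finset Mom) (h0 : (0 : Mom) ∈ B) (n : Mom) (hn : -n ∈ B)
    (hne : n ≠ 0) (a : (Fin N → Mom) → ℂ) :
    pairS B a n = ∑ i : Fin N, ∑ m ∈ (Fintype.piFinset (fun _ : Fin N => B)).filter
        (fun m => m i = 0),
      (∑ j ∈ Finset.univ.filter (fun j => m j = -n), conj (a (Function.update m j 0))) *
      a (Function.update m i n) := by
  classical
  unfold pairS
  apply Finset.sum_congr rfl
  intro i _
  have h1 : ∀ j ∈ Finset.univ.erase i,
      ∑ M ∈ (Fintype.piFinset (fun _ : Fin N => B)).filter (fun M => M i = 0 ∧ M j = 0),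
        conj (a M) * a (Function.update (Function.update M i n) j (-n)) =
      ∑ m ∈ (Fintype.piFinset (fun _ : Fin N => B)).filter (fun m => m j = -n),
        if m i = 0 then conj (a (Function.update m j 0)) * a (Function.update m i n) else 0 := by
    intro j hj
    have hji : j ≠ i := Finset.ne_of_mem_erase hj
    have e : (Fintype.piFinset (fun _ : Fin N => B)).filter (fun M => M i = 0 ∧ M j = 0) =
        ((Fintype.piFinset (fun _ : Fin N => B)).filter (fun M => M j = 0)).filter
          (fun M => M i = 0) := by
      rw [Finset.filter_filter]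
      apply Finset.filter_congr
      intro x _
      exact and_comm
    rw [e, Finset.sum_filter,
      t2_sum_update B j h0 hn (fun M => if M i = 0 then
        conj (a M) * a (Function.update (Function.update M i n) j (-n)) else 0)]
    apply Finset.sum_congr rfl
    intro m hm
    rw [Finset.mem_filter] at hm
    rw [Function.update_of_ne (Ne.symm hji)]
    by_cases hi : m i = 0
    · rw [if_pos hi, if_pos hi]
      congr 2
      rw [Function.update_comm hji, Function.update_idem, Function.update_comm (Ne.symm hji),
        ← hm.2, Function.update_eq_self]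
    · rw [if_neg hi, if_neg hi]
  rw [Finset.sum_congr rfl h1]
  have h2 : ∀ j : Fin N,
      ∑ m ∈ (Fintype.piFinset (fun _ : Fin N => B)).filter (fun m => m j = -n),
        (if m i = 0 then conj (a (Function.update m j 0)) * a (Function.update m i n) else 0) =
      ∑ m ∈ (Fintype.piFinset (fun _ : Fin N => B)).filter (fun m => m i = 0),
        (if m j = -n then conj (a (Function.update m j 0)) * a (Function.update m i n) else 0) := by
    intro j
    rw [Finset.sum_filter, Finset.sum_filter]
    apply Finset.sum_congr rfl
    intro m _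
    by_cases h3 : m j = -n <;> by_cases h4 : m i = 0 <;> simp [h3, h4]
  rw [Finset.sum_congr rfl fun j _ => h2 j, Finset.sum_comm]
  apply Finset.sum_congr rfl
  intro m hm
  rw [Finset.mem_filter] at hm
  rw [Finset.sum_mul, Finset.sum_filter]
  have h5 := Finset.add_sum_erase Finset.univ
    (fun j : Fin N => if m j = -n then conj (a (Function.update m j 0)) *
      a (Function.update m i n) else 0) (Finset.mem_univ i)
  have h6 : ¬ m i = -n := by
    rw [hm.2]
    intro h
    exact hne (neg_eq_zero.mp h.symm)
  simp only [if_neg h6, zero_add] at h5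
  exact h5

theorem pair_main {N : ℕ} (B : Finset Mom) (h0 : (0 : Mom) ∈ B) (n : Mom) (hn : n ∈ B)
    (hn' : -n ∈ B) (hne : n ≠ 0) (a : (Fin N → Mom) → ℂ) :
    0 ≤ (pairS B a 0).re ∧
      ‖pairS B a n‖ ^ 2 ≤ occ B a n * ((pairS B a 0).re + (N : ℝ) ^ 2 * occ B a (-n)) := by
  classical
  have hk1 : ∀ M : Fin N → Mom, (0 : ℝ) ≤
      ((Finset.univ.filter (fun i => M i = 0)).card : ℝ) *
        (((Finset.univ.filter (fun i => M i = 0)).card : ℝ) - 1) := by
    intro M
    rcases Nat.eq_zero_or_pos (Finset.univ.filter (fun i => M i = 0)).card with h | h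
    · rw [h]; simp
    · have h1 : (1 : ℝ) ≤ ((Finset.univ.filter (fun i => M i = 0)).card : ℝ) := by
        exact_mod_cast h
      exact mul_nonneg (by linarith) (by linarith)
  refine ⟨?_, ?_⟩
  · rw [pairS_zero_re]
    exact Finset.sum_nonneg fun M _ => mul_nonneg (hk1 M) (sq_nonneg _)
  -- Cauchy-Schwarz
  set P := Fintype.piFinset (fun _ : Fin N => B) with hP
  have hS : pairS B a n = ∑ p ∈ (Finset.univ.sigma (fun i : Fin N => P.filter (fun m => m i = 0))),
      (∑ j ∈ Finset.univ.filter (fun j => p.2 j = -n), conj (a (Function.update p.2 j 0))) *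
      a (Function.update p.2 p.1 n) := by
    rw [pairS_eq' B h0 n hn' hne a, Finset.sum_sigma]
  rw [hS]
  refine (t2_cs _ _ _).trans ?_
  rw [Finset.sum_sigma, Finset.sum_sigma, mul_comm]
  -- second factor
  have hG : ∑ i : Fin N, ∑ m ∈ P.filter (fun m => m i = 0), ‖a (Function.update m i n)‖ ^ 2 =
      occ B a n := by
    have h2 : ∀ i : Fin N, ∑ m ∈ P.filter (fun m => m i = 0), ‖a (Function.update m i n)‖ ^ 2 =
        ∑ M ∈ P, if M i = n then ‖a M‖ ^ 2 else 0 := by
      intro i
      rw [← Finset.sum_filter, hP, t2_sum_update B i hn h0 (fun M => ‖a M‖ ^ 2)]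
    rw [Finset.sum_congr rfl fun i _ => h2 i, Finset.sum_comm]
    unfold occ
    apply Finset.sum_congr rfl
    intro M _
    rw [← Finset.sum_filter, Finset.sum_const, nsmul_eq_mul]
  have hF : ∑ i : Fin N, ∑ m ∈ P.filter (fun m => m i = 0),
      ‖∑ j ∈ Finset.univ.filter (fun j => m j = -n), conj (a (Function.update m j 0))‖ ^ 2 ≤
      (pairS B a 0).re + (N : ℝ) ^ 2 * occ B a (-n) := by
    -- step 1
    have h1 : ∀ i : Fin N, ∀ m ∈ P.filter (fun m => m i = 0),
        ‖∑ j ∈ Finset.univ.filter (fun j => m j = -n), conj (a (Function.update m j 0))‖ ^ 2 ≤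
        ∑ j : Fin N, if m j = -n then
          ((Finset.univ.filter (fun l => m l = -n)).card : ℝ) * ‖a (Function.update m j 0)‖ ^ 2
          else 0 := by
      intro i m _
      refine (t2_norm_sum_sq _ _).trans (le_of_eq ?_)
      rw [← Finset.sum_filter, Finset.mul_sum]
      apply Finset.sum_congr rfl
      intro i _
      rw [RCLike.norm_conj]
    refine (Finset.sum_le_sum fun i _ => Finset.sum_le_sum (h1 i)).trans ?_
    -- step 2: exchange
    have h2 : ∑ i : Fin N, ∑ m ∈ P.filter (fun m => m i = 0), ∑ j : Fin N,
        (if m j = -n then ((Finset.univ.filter (fun l => m l = -n)).card : ℝ) *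
          ‖a (Function.update m j 0)‖ ^ 2 else 0) =
        ∑ j : Fin N, ∑ m ∈ P.filter (fun m => m j = -n),
          ((Finset.univ.filter (fun i => m i = 0)).card : ℝ) *
          (((Finset.univ.filter (fun l => m l = -n)).card : ℝ) *
          ‖a (Function.update m j 0)‖ ^ 2) := by
      have e1 : ∀ i : Fin N, ∑ m ∈ P.filter (fun m => m i = 0), ∑ j : Fin N,
          (if m j = -n then ((Finset.univ.filter (fun l => m l = -n)).card : ℝ) *
            ‖a (Function.update m j 0)‖ ^ 2 else 0) =
          ∑ m ∈ P, ∑ j : Fin N, if m i = 0 then (if m j = -n then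
            ((Finset.univ.filter (fun l => m l = -n)).card : ℝ) *
            ‖a (Function.update m j 0)‖ ^ 2 else 0) else 0 := by
        intro i
        rw [Finset.sum_filter]
        apply Finset.sum_congr rfl
        intro m _
        by_cases hi : m i = 0
        · simp [hi]
        · simp [hi]
      rw [Finset.sum_congr rfl fun i _ => e1 i, Finset.sum_comm]
      have e2 : ∀ j : Fin N, ∑ m ∈ P.filter (fun m => m j = -n),
          ((Finset.univ.filter (fun i => m i = 0)).card : ℝ) *
          (((Finset.univ.filter (fun l => m l = -n)).card : ℝ) *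
          ‖a (Function.update m j 0)‖ ^ 2) =
          ∑ m ∈ P, ∑ i : Fin N, if m i = 0 then (if m j = -n then
            ((Finset.univ.filter (fun l => m l = -n)).card : ℝ) *
            ‖a (Function.update m j 0)‖ ^ 2 else 0) else 0 := by
        intro j
        rw [Finset.sum_filter]
        apply Finset.sum_congr rfl
        intro m _
        rw [← Finset.sum_filter, Finset.sum_const, nsmul_eq_mul]
        by_cases hj : m j = -n
        · rw [if_pos hj, if_pos hj]
        · rw [if_neg hj, if_neg hj, mul_zero]
      rw [Finset.sum_congr rfl fun j _ => e2 j]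
      conv_rhs => rw [Finset.sum_comm]
      apply Finset.sum_congr rfl
      intro m _
      rw [Finset.sum_comm]
    rw [h2]
    -- step 3: substitution
    have h3 : ∀ j : Fin N, ∑ m ∈ P.filter (fun m => m j = -n),
        ((Finset.univ.filter (fun i => m i = 0)).card : ℝ) *
        (((Finset.univ.filter (fun l => m l = -n)).card : ℝ) *
          ‖a (Function.update m j 0)‖ ^ 2) ≤
        ∑ M ∈ P, if M j = 0 then
          (((Finset.univ.filter (fun i => M i = 0)).card : ℝ) - 1) *
          ((((Finset.univ.filter (fun l => M l = -n)).card : ℝ) + 1) * ‖a M‖ ^ 2) else 0 := by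
      intro j
      rw [← Finset.sum_filter, hP, t2_sum_update B j hn' h0 (fun m =>
        ((Finset.univ.filter (fun i => m i = 0)).card : ℝ) *
        (((Finset.univ.filter (fun l => m l = -n)).card : ℝ) *
          ‖a (Function.update m j 0)‖ ^ 2))]
      apply Finset.sum_le_sum
      intro M hM
      rw [Finset.mem_filter] at hM
      rw [Function.update_idem]
      have e : Function.update M j 0 = M := by
        rw [← hM.2, Function.update_eq_self]
      rw [e]
      have hn0 : ¬ (-n) = (0 : Mom) := fun h => hne (neg_eq_zero.mp h)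
      have hsub1 : Finset.univ.filter (fun l : Fin N => Function.update M j (-n) l = 0) ⊆
          (Finset.univ.filter (fun l : Fin N => M l = 0)).erase j := by
        intro l hl
        rw [Finset.mem_filter] at hl
        rw [Finset.mem_erase, Finset.mem_filter]
        by_cases hlj : l = j
        · exfalso
          rw [hlj, Function.update_self] at hl
          exact hn0 hl.2
        · rw [Function.update_of_ne hlj] at hl
          exact ⟨hlj, hl⟩
      have hjm : j ∈ Finset.univ.filter (fun l : Fin N => M l = 0) := by
        rw [Finset.mem_filter]; exact ⟨Finset.mem_univ _, hM.2⟩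
      have hc1 : ((Finset.univ.filter (fun l : Fin N => Function.update M j (-n) l = 0)).card : ℝ)
          ≤ ((Finset.univ.filter (fun i => M i = 0)).card : ℝ) - 1 := by
        have h4 := Finset.card_le_card hsub1
        rw [Finset.card_erase_of_mem hjm] at h4
        have h5 : 1 ≤ (Finset.univ.filter (fun l : Fin N => M l = 0)).card :=
          Finset.card_pos.mpr ⟨j, hjm⟩
        have h6 : (Finset.univ.filter (fun l : Fin N => Function.update M j (-n) l = 0)).card + 1 ≤
          (Finset.univ.filter (fun i => M i = 0)).card := by omega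
        have h7 : ((Finset.univ.filter (fun l : Fin N =>
          Function.update M j (-n) l = 0)).card : ℝ) + 1 ≤
          ((Finset.univ.filter (fun i => M i = 0)).card : ℝ) := by exact_mod_cast h6
        linarith
      have hsub : Finset.univ.filter (fun l : Fin N => Function.update M j (-n) l = -n) ⊆
          insert j (Finset.univ.filter (fun l : Fin N => M l = -n)) := by
        intro l hl
        rw [Finset.mem_filter] at hl
        rw [Finset.mem_insert, Finset.mem_filter]
        by_cases hli : l = j
        · exact Or.inl hli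
        · right
          rw [Function.update_of_ne hli] at hl
          exact hl
      have hc2 : ((Finset.univ.filter (fun l : Fin N => Function.update M j (-n) l = -n)).card : ℝ)
          ≤ ((Finset.univ.filter (fun l => M l = -n)).card : ℝ) + 1 := by
        have := (Finset.card_le_card hsub).trans (Finset.card_insert_le _ _)
        exact_mod_cast this
      have hc0 : (0 : ℝ) ≤
          ((Finset.univ.filter (fun l : Fin N => Function.update M j (-n) l = 0)).card : ℝ) :=
        Nat.cast_nonneg _
      apply mul_le_mul hc1 _ (by positivity) (by linarith)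
      exact mul_le_mul_of_nonneg_right hc2 (sq_nonneg _)
    refine (Finset.sum_le_sum fun j _ => h3 j).trans ?_
    rw [Finset.sum_comm, pairS_zero_re]
    unfold occ
    rw [Finset.mul_sum, ← Finset.sum_add_distrib]
    apply Finset.sum_le_sum
    intro M _
    rw [← Finset.sum_filter, Finset.sum_const, nsmul_eq_mul]
    have hk := hk1 M
    set k := ((Finset.univ.filter (fun i => M i = 0)).card : ℝ) with hkdef
    set l := ((Finset.univ.filter (fun i => M i = -n)).card : ℝ) with hldef
    have hl0 : 0 ≤ l := Nat.cast_nonneg _
    have hk0 : 0 ≤ k := Nat.cast_nonneg _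
    have hkN : k ≤ N := by
      rw [hkdef]
      have : (Finset.univ.filter (fun i : Fin N => M i = 0)).card ≤ N := by
        refine (Finset.card_filter_le _ _).trans (le_of_eq ?_)
        rw [Finset.card_univ, Fintype.card_fin]
      exact_mod_cast this
    have hN0 : (0 : ℝ) ≤ N := Nat.cast_nonneg _
    have hkk : k * (k - 1) ≤ (N : ℝ) ^ 2 := by nlinarith
    have ha : 0 ≤ ‖a M‖ ^ 2 := sq_nonneg _
    have hla : 0 ≤ l * ‖a M‖ ^ 2 := mul_nonneg hl0 ha
    nlinarith [mul_le_mul_of_nonneg_right hkk hla]
  rw [hG]
  have hocc : 0 ≤ occ B a n := by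
    unfold occ
    exact Finset.sum_nonneg fun _ _ => by positivity
  exact mul_le_mul_of_nonneg_left hF hocc

theorem pair : Pool.Agent.J6H80.BG.S_PAIR :=
  fun _ B h0 n hn hn' hne a => pair_main B h0 n hn hn' hne a

end

end Pool.Agent.J6H17.BG
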